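import Pool.Agent.EVF.StmtsG

/-!
Squad EVF, row LEA (helper33): the leading coefficient of the equation.
-/

namespace Pool.Agent.EVF.H33

open MvPolynomial Matrix

/-- Twice the weighted degree of the monomials is at most `k`. -/
def Bd (u v k : ℕ) (G : MvPolynomial (Fin 2) ℂ) : Prop :=
  ∀ e ∈ G.support, 2 * (u * e 0 + v * e 1) ≤ k

lemma Bd.add {u v k : ℕ} {G H : MvPolynomial (Fin 2) ℂ} (hG : Bd u v k G) (hH : Bd u v k H) :
    Bd u v k (G + H) := by
  intro e he
  rcases Finset.mem_union.mp (MvPolynomial.support_add he) with h | h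
  · exact hG e h
  · exact hH e h

lemma Bd.zero {u v k : ℕ} : Bd u v k 0 := by
  intro e he
  simp at he

lemma Bd.sum {ι : Type*} {u v k : ℕ} (s : Finset ι) (f : ι → MvPolynomial (Fin 2) ℂ)
    (h : ∀ i ∈ s, Bd u v k (f i)) : Bd u v k (∑ i ∈ s, f i) := by
  classical
  induction s using Finset.induction_on with
  | empty => rw [Finset.sum_empty]; exact Bd.zero
  | insert a s ha ih =>
    rw [Finset.sum_insert ha]
    exact (h a (Finset.mem_insert_self a s)).add
      (ih fun i hi => h i (Finset.mem_insert_of_mem hi))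

lemma Bd.mul {u v k l : ℕ} {G H : MvPolynomial (Fin 2) ℂ} (hG : Bd u v k G) (hH : Bd u v l H) :
    Bd u v (k + l) (G * H) := by
  classical
  intro e he
  obtain ⟨a, ha, b, hb, rfl⟩ := Finset.mem_add.mp (MvPolynomial.support_mul G H he)
  have h1 := hG a ha
  have h2 := hH b hb
  rw [Finsupp.add_apply, Finsupp.add_apply]
  calc 2 * (u * (a 0 + b 0) + v * (a 1 + b 1))
      = 2 * (u * a 0 + v * a 1) + 2 * (u * b 0 + v * b 1) := by ring
    _ ≤ k + l := Nat.add_le_add h1 h2

lemma Bd.prod {ι : Type*} {u v : ℕ} (s : Finset ι) (f : ι → MvPolynomial (Fin 2) ℂ) (d : ι → ℕ)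
    (h : ∀ i ∈ s, Bd u v (d i) (f i)) : Bd u v (∑ i ∈ s, d i) (∏ i ∈ s, f i) := by
  classical
  induction s using Finset.induction_on with
  | empty =>
    rw [Finset.prod_empty, Finset.sum_empty]
    intro e he
    rw [MvPolynomial.support_one, Finset.mem_singleton] at he
    rw [he]
    simp
  | insert a s ha ih =>
    rw [Finset.prod_insert ha, Finset.sum_insert ha]
    exact (h a (Finset.mem_insert_self a s)).mul
      (ih fun i hi => h i (Finset.mem_insert_of_mem hi))

lemma Bd.smul_units {u v k : ℕ} {G : MvPolynomial (Fin 2) ℂ} (hG : Bd u v k G) (z : ℤˣ) :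
    Bd u v k (z • G) := by
  intro e he
  refine hG e ?_
  rw [MvPolynomial.mem_support_iff] at he ⊢
  intro h0
  refine he ?_
  rcases Int.units_eq_one_or z with rfl | rfl
  · rw [one_smul, h0]
  · rw [Units.neg_smul, one_smul, MvPolynomial.coeff_neg, h0, neg_zero]

/-- The coefficients of a slice. -/
lemma slice_coeff (G : MvPolynomial (Fin 2) ℂ) (x : ℂ) (k : ℕ) :
    (Helper90Frey.slice G x).coeff k =
      ∑ e ∈ G.support, if k = e 1 then coeff e G * x ^ e 0 else 0 := by
  unfold Helper90Frey.slice
  rw [MvPolynomial.aeval_def, MvPolynomial.eval₂_eq', Polynomial.finsetSum_coeff]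
  refine Finset.sum_congr rfl fun e _ => ?_
  rw [Fin.prod_univ_two]
  simp only [Matrix.cons_val_zero, Matrix.cons_val_one]
  rw [← Polynomial.C_pow, Polynomial.algebraMap_apply, Algebra.algebraMap_self, RingHom.id_apply,
    ← mul_assoc, ← Polynomial.C_mul, Polynomial.coeff_C_mul, Polynomial.coeff_X_pow]
  split_ifs <;> simp

lemma det_bd {r : ℕ} (s : Shape r) (A : CMat r) (hA : Shaped s A) :
    ∀ e ∈ A.det.support, s.u * e 0 + s.v * e 1 ≤ s.deg := by
  have h : Bd s.u s.v (2 * s.deg) A.det := by
    rw [Matrix.det_apply]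
    refine Bd.sum _ _ fun σ _ => Bd.smul_units ?_ _
    have h := Bd.prod Finset.univ (fun i => A (σ i) i) (fun i => s.D (σ i) + s.D i)
      (fun i _ => hA.deg (σ i) i)
    rw [Finset.sum_add_distrib, Equiv.sum_comp σ s.D] at h
    rw [two_mul]
    exact h
  intro e he
  exact Nat.le_of_mul_le_mul_left (h e he) two_pos

theorem lea : LeaStmt := by
  intro r s A hs hA
  have hb := det_bd s A hA
  refine ⟨⟨hA.top, fun x => ?_⟩, hb⟩
  have hdv : s.deg = s.v * (s.deg / s.v) := (Nat.mul_div_cancel' hs.dvd).symm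
  have hle : ∀ e ∈ A.det.support, e 1 ≤ s.deg / s.v := by
    intro e he
    refine Nat.le_of_mul_le_mul_left ?_ hs.v_pos
    rw [← hdv]
    exact le_trans (Nat.le_add_left _ _) (hb e he)
  have heq : ∀ e ∈ A.det.support, s.deg / s.v = e 1 → e = topE s := by
    intro e he h1
    have h0 : e 0 = 0 := by
      have h2 := hb e he
      rw [← h1, ← hdv] at h2
      have h3 : s.u * e 0 = 0 := by omega
      rcases Nat.mul_eq_zero.mp h3 with h4 | h4
      · exact absurd h4 hs.u_pos.ne'
      · exact h4
    unfold topE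
    ext i
    fin_cases i
    · simp [h0]
    · simp [h1]
  have hc : (Helper90Frey.slice A.det x).coeff (s.deg / s.v) = coeff (topE s) A.det := by
    rw [slice_coeff]
    have hm : topE s ∈ A.det.support := MvPolynomial.mem_support_iff.mpr hA.top
    rw [Finset.sum_eq_single_of_mem (topE s) hm]
    · unfold topE
      simp
    · intro e he hne
      rw [if_neg]
      intro h1
      exact hne (heq e he h1)
  have hd : (Helper90Frey.slice A.det x).natDegree = s.deg / s.v := by
    refine Polynomial.natDegree_eq_of_le_of_coeff_ne_zero ?_ ?_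
    · rw [Polynomial.natDegree_le_iff_coeff_eq_zero]
      intro k hk
      rw [slice_coeff]
      refine Finset.sum_eq_zero fun e he => ?_
      rw [if_neg]
      intro h1
      have h2 := hle e he
      omega
    · rw [hc]
      exact hA.top
  refine ⟨hd, ?_⟩
  rw [Polynomial.leadingCoeff, hd, hc]

end Pool.Agent.EVF.H33
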